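import Pool.Agent.Helper52.Wqo.Uni

set_option autoImplicit false

namespace Pool.Agent.Helper52.VFE

open Pool.Agent.Helper52.Wqo

variable {Γ : Type*} [Group Γ]

/-- Finite stages; every nonempty branch set contains a point of `Z`. -/
structure OkZ (S Z : Set Γ) (β : ℕ → Set Γ) : Prop extends Ok S β where
  hz : ∀ i, (β i).Nonempty → ∃ z ∈ Z, z ∈ β i

theorem OkZ.update {S Z : Set Γ} {β : ℕ → Set Γ} (h : OkZ S Z β) (i : ℕ) (P : Set Γ)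
    (hP : P.Finite) (hd : ∀ x ∈ P, x ∉ ⋃ k, β k) (hpre : PreC S (β i ∪ P))
    (hz : ∃ z ∈ Z, z ∈ β i ∪ P) :
    OkZ S Z (Function.update β i (β i ∪ P)) := by
  refine ⟨h.toOk.update i P hP hd hpre, ?_⟩
  intro k hk
  by_cases hki : k = i
  · subst hki
    rw [Function.update_self]
    exact hz
  · rw [Function.update_of_ne hki] at hk ⊢
    exact h.hz k hk

theorem OkZ.nonempty {S Z : Set Γ} {β : ℕ → Set Γ} (hinf : Z.Infinite) (h : OkZ S Z β) (i : ℕ) :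
    ∃ β', OkZ S Z β' ∧ (∀ k, β k ⊆ β' k) ∧ (β' i).Nonempty := by
  by_cases hi : (β i).Nonempty
  · exact ⟨β, h, fun k => le_refl _, hi⟩
  · have he : β i = ∅ := Set.not_nonempty_iff_eq_empty.1 hi
    obtain ⟨v, hvZ, hv⟩ := (hinf.sdiff h.toOk.union_fin).nonempty
    refine ⟨Function.update β i (β i ∪ {v}), h.update i {v} (Set.finite_singleton _) ?_ ?_
      ⟨v, hvZ, Or.inr rfl⟩, update_le i {v}, ⟨v, ?_⟩⟩
    · rintro x rfl
      exact hv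
    · rw [he, Set.empty_union]
      exact preC_singleton S v
    · rw [Function.update_self]
      exact Or.inr rfl

theorem OkZ.grow {S Z : Set Γ} {β : ℕ → Set Γ} (hS : Gen S) (h : OkZ S Z β) (i j : ℕ)
    (hij : i ≠ j) {z : Γ} (hz : z ∈ β i) (hzZ : z ∈ Z) {y : Γ}
    (hy : y ∈ cmp S (⋃ k, ⋃ _ : k ≠ i ∧ k ≠ j, β k) z) :
    ∃ β', OkZ S Z β' ∧ (∀ k, β k ⊆ β' k) ∧ (∀ k, k ≠ i → β' k = β k) ∧
      ((∃ a ∈ β' i, ∃ b ∈ β' j, a⁻¹ * b ∈ S) ∨ y ∈ β' i) := by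
  have hy' : Relation.ReflTransGen
      (fun a b => a⁻¹ * b ∈ S ∧ b ∉ (⋃ k, ⋃ _ : k ≠ i ∧ k ≠ j, β k)) z y := hy
  clear hy
  induction hy' with
  | refl => exact ⟨β, h, fun k => le_refl _, fun _ _ => rfl, Or.inr hz⟩
  | tail hab hbc ih =>
    rename_i b c
    obtain ⟨β', h1, h2, h3, h4⟩ := ih
    rcases h4 with h4 | h4
    · exact ⟨β', h1, h2, h3, Or.inl h4⟩
    · by_cases hcj : c ∈ β' j
      · exact ⟨β', h1, h2, h3, Or.inl ⟨b, h4, c, hcj, hbc.1⟩⟩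
      by_cases hci : c ∈ β' i
      · exact ⟨β', h1, h2, h3, Or.inr hci⟩
      refine ⟨Function.update β' i (β' i ∪ {c}), h1.update i {c} (Set.finite_singleton _) ?_ ?_
        ⟨z, hzZ, Or.inl (h2 i hz)⟩, ?_, ?_, Or.inr ?_⟩
      · intro x hx hmem
        have hxc : x = c := hx
        subst hxc
        obtain ⟨k, hk⟩ := Set.mem_iUnion.1 hmem
        have hki : k ≠ i := by rintro rfl; exact hci hk
        have hkj : k ≠ j := by rintro rfl; exact hcj hk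
        apply hbc.2
        rw [h3 k hki] at hk
        exact Set.mem_iUnion.2 ⟨k, Set.mem_iUnion.2 ⟨⟨hki, hkj⟩, hk⟩⟩
      · exact preC_union hS (h1.pre i) (preC_singleton S c) h4 rfl hbc.1
      · intro k
        exact (h2 k).trans (update_le i {c} k)
      · intro k hk
        rw [Function.update_of_ne hk]
        exact h3 k hk
      · rw [Function.update_self]
        exact Or.inr rfl

theorem OkZ.step {S Z : Set Γ} {β : ℕ → Set Γ} (hS : Gen S) (hinf : Z.Infinite)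
    (hconn : ∀ F : Set Γ, F.Finite → ∀ a ∈ Z, ∀ b ∈ Z, a ∉ F → b ∉ F → b ∈ cmp S F a)
    (h : OkZ S Z β) (i j : ℕ) (hij : i ≠ j) :
    ∃ β', OkZ S Z β' ∧ (∀ k, β k ⊆ β' k) ∧ ∃ a ∈ β' i, ∃ b ∈ β' j, a⁻¹ * b ∈ S := by
  obtain ⟨β₁, h₁, hle₁, hne₁⟩ := h.nonempty hinf i
  obtain ⟨β₂, h₂, hle₂, hne₂⟩ := h₁.nonempty hinf j
  obtain ⟨z, hzZ, hz⟩ := h₂.hz i (hne₁.mono (hle₂ i))
  obtain ⟨z', hzZ', hz'⟩ := h₂.hz j hne₂
  have hF : (⋃ k, ⋃ _ : k ≠ i ∧ k ≠ j, β₂ k).Finite := by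
    refine h₂.toOk.union_fin.subset ?_
    intro x hx
    obtain ⟨k, hk⟩ := Set.mem_iUnion.1 hx
    obtain ⟨_, hk⟩ := Set.mem_iUnion.1 hk
    exact Set.mem_iUnion.2 ⟨k, hk⟩
  have hzF : z ∉ (⋃ k, ⋃ _ : k ≠ i ∧ k ≠ j, β₂ k) := by
    intro hx
    obtain ⟨k, hk⟩ := Set.mem_iUnion.1 hx
    obtain ⟨hk1, hk⟩ := Set.mem_iUnion.1 hk
    exact hk1.1 (h₂.disj _ _ _ hk hz)
  have hzF' : z' ∉ (⋃ k, ⋃ _ : k ≠ i ∧ k ≠ j, β₂ k) := by
    intro hx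
    obtain ⟨k, hk⟩ := Set.mem_iUnion.1 hx
    obtain ⟨hk1, hk⟩ := Set.mem_iUnion.1 hk
    exact hk1.2 (h₂.disj _ _ _ hk hz')
  obtain ⟨β', g1, g2, g3, g4⟩ := h₂.grow hS i j hij hz hzZ (hconn _ hF z hzZ z' hzZ' hzF hzF')
  refine ⟨β', g1, fun k => ((hle₁ k).trans (hle₂ k)).trans (g2 k), ?_⟩
  rcases g4 with g4 | g4
  · exact g4
  · exact absurd (g1.disj _ _ _ g4 (g2 j hz')) hij

/-- Infinitely many points that are pairwise not separated by finite sets give a complete minor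
on `ℕ`. -/
theorem complete_minor {S Z : Set Γ} (hS : Gen S) (hinf : Z.Infinite)
    (hconn : ∀ F : Set Γ, F.Finite → ∀ a ∈ Z, ∀ b ∈ Z, a ∉ F → b ∉ F → b ∈ cmp S F a) :
    ∃ B : ℕ → Set Γ, (∀ i, (B i).Nonempty) ∧ (∀ i, PreC S (B i)) ∧
      (∀ i j x, x ∈ B i → x ∈ B j → i = j) ∧
      (∀ i j, i ≠ j → ∃ a ∈ B i, ∃ b ∈ B j, a⁻¹ * b ∈ S) := by
  classical
  have step : ∀ (β : {β : ℕ → Set Γ // OkZ S Z β}) (p : ℕ × ℕ),
      ∃ β' : {β : ℕ → Set Γ // OkZ S Z β},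
      (∀ k, β.1 k ⊆ β'.1 k) ∧ (p.1 ≠ p.2 → ∃ a ∈ β'.1 p.1, ∃ b ∈ β'.1 p.2, a⁻¹ * b ∈ S) := by
    rintro ⟨β, hβ⟩ ⟨i, j⟩
    by_cases hij : i = j
    · exact ⟨⟨β, hβ⟩, fun k => le_refl _, fun h => absurd hij h⟩
    · obtain ⟨β', h1, h2, h3⟩ := hβ.step hS hinf hconn i j hij
      exact ⟨⟨β', h1⟩, h2, fun _ => h3⟩
  choose nxt hnxt1 hnxt2 using step
  have h0 : OkZ S Z (fun _ => (∅ : Set Γ)) :=
    ⟨⟨fun _ => Set.finite_empty, fun _ _ x hx => absurd hx (Set.notMem_empty x),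
      fun _ => preC_empty S, ⟨0, fun _ _ => rfl⟩⟩, fun _ h => absurd h (by simp)⟩
  let seq : ℕ → {β : ℕ → Set Γ // OkZ S Z β} := fun n =>
    Nat.rec ⟨fun _ => (∅ : Set Γ), h0⟩ (fun n β => nxt β (Nat.unpair n)) n
  have hseq : ∀ n, seq (n + 1) = nxt (seq n) (Nat.unpair n) := fun n => rfl
  have hmono1 : ∀ n k, (seq n).1 k ⊆ (seq (n + 1)).1 k := by
    intro n k
    rw [hseq]
    exact hnxt1 _ _ k
  have hmono : ∀ m n, m ≤ n → ∀ k, (seq m).1 k ⊆ (seq n).1 k := by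
    intro m n hmn k
    induction hmn with
    | refl => exact le_refl _
    | step _ ih => exact ih.trans (hmono1 _ k)
  have hadj : ∀ i j, i ≠ j → ∃ n, ∃ a ∈ (seq n).1 i, ∃ b ∈ (seq n).1 j, a⁻¹ * b ∈ S := by
    intro i j hij
    refine ⟨Nat.pair i j + 1, ?_⟩
    rw [hseq, Nat.unpair_pair]
    exact hnxt2 _ (i, j) hij
  refine ⟨fun i => ⋃ n, (seq n).1 i, ?_, ?_, ?_, ?_⟩
  · intro i
    obtain ⟨n, a, ha, _⟩ := hadj i (i + 1) (by omega)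
    exact ⟨a, Set.mem_iUnion.2 ⟨n, ha⟩⟩
  · intro i a ha b hb
    obtain ⟨m, hm⟩ := Set.mem_iUnion.1 ha
    obtain ⟨n, hn⟩ := Set.mem_iUnion.1 hb
    have h1 := hmono m (max m n) (le_max_left _ _) i hm
    have h2 := hmono n (max m n) (le_max_right _ _) i hn
    exact rtg_mono (Set.subset_iUnion (fun n => (seq n).1 i) (max m n))
      ((seq (max m n)).2.pre i a h1 b h2)
  · intro i j x hx hx'
    obtain ⟨m, hm⟩ := Set.mem_iUnion.1 hx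
    obtain ⟨n, hn⟩ := Set.mem_iUnion.1 hx'
    exact (seq (max m n)).2.disj i j x (hmono m (max m n) (le_max_left _ _) i hm)
      (hmono n (max m n) (le_max_right _ _) j hn)
  · intro i j hij
    obtain ⟨n, a, ha, b, hb, hab⟩ := hadj i j hij
    exact ⟨a, Set.mem_iUnion.2 ⟨n, ha⟩, b, Set.mem_iUnion.2 ⟨n, hb⟩, hab⟩

end Pool.Agent.Helper52.VFE
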